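import Mathlib

set_option autoImplicit false

/-! Spectrally arbitrary patterns over algebraically closed fields: blocks and direct sums. -/

namespace Pool.Agent.Lib.MP_8c7c0e_co

open Matrix Polynomial

universe u


def Rz {ι : Type} [Fintype ι] [DecidableEq ι] {F : Type u} [Field F]
    (P : ι → ι → Bool) (p : F[X]) : Prop :=
  ∃ A : Matrix ι ι F, (∀ i j, (A i j ≠ 0 ↔ P i j = true)) ∧ A.charpoly = p

def dsum {ι κ : Type} (P : ι → ι → Bool) (Q : κ → κ → Bool) : ι ⊕ κ → ι ⊕ κ → Bool
  | Sum.inl i, Sum.inl j => P i j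
  | Sum.inr i, Sum.inr j => Q i j
  | _, _ => false

theorem Rz_dsum {ι κ : Type} [Fintype ι] [DecidableEq ι] [Fintype κ] [DecidableEq κ]
    {F : Type u} [Field F] {P : ι → ι → Bool} {Q : κ → κ → Bool} {p q : F[X]}
    (hp : Rz P p) (hq : Rz Q q) : Rz (dsum P Q) (p * q) := by
  obtain ⟨A, hA, rfl⟩ := hp
  obtain ⟨B, hB, rfl⟩ := hq
  refine ⟨Matrix.fromBlocks A 0 0 B, ?_, by simp⟩
  rintro (i | i) (j | j)
  · simpa [dsum] using hA i j
  · simp [dsum]
  · simp [dsum]
  · simpa [dsum] using hB i j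

theorem Rz_equiv {ι κ : Type} [Fintype ι] [DecidableEq ι] [Fintype κ] [DecidableEq κ]
    {F : Type u} [Field F] {P : ι → ι → Bool} {p : F[X]} (e : ι ≃ κ)
    (hp : Rz P p) : Rz (fun i j => P (e.symm i) (e.symm j)) p := by
  obtain ⟨A, hA, rfl⟩ := hp
  refine ⟨Matrix.reindex e e A, ?_, Matrix.charpoly_reindex e A⟩
  intro i j
  simpa using hA (e.symm i) (e.symm j)

def cnt {ι : Type} [Fintype ι] (P : ι → ι → Bool) : ℕ := ∑ i, ∑ j, if P i j = true then 1 else 0

theorem cnt_eq {n : ℕ} (P : Fin n → Fin n → Bool) :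
    (Finset.univ.filter (fun ij : Fin n × Fin n => P ij.1 ij.2 = true)).card = cnt P := by
  rw [Finset.card_filter, Fintype.sum_prod_type]
  rfl

theorem cnt_dsum {ι κ : Type} [Fintype ι] [Fintype κ] (P : ι → ι → Bool) (Q : κ → κ → Bool) :
    cnt (dsum P Q) = cnt P + cnt Q := by
  simp only [cnt, dsum, Fintype.sum_sum_type]
  simp only [Bool.false_eq_true, if_false, Finset.sum_const_zero, add_zero, zero_add]
  rfl

theorem cnt_equiv {ι κ : Type} [Fintype ι] [Fintype κ] (P : ι → ι → Bool) (e : ι ≃ κ) :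
    cnt (fun i j => P (e.symm i) (e.symm j)) = cnt P := by
  unfold cnt
  rw [← Equiv.sum_comp e]
  apply Finset.sum_congr rfl
  intro i _
  rw [← Equiv.sum_comp e]
  simp

/-- the product of `X - x` over a multiset of roots -/
noncomputable def rp {F : Type u} [Field F] (s : Multiset F) : F[X] := (s.map (fun x => X - C x)).prod

theorem rp_add {F : Type u} [Field F] (s t : Multiset F) : rp (s + t) = rp s * rp t := by
  simp [rp]

/-- the 4x4 block, 7 entries -/
def PA : Fin 4 → Fin 4 → Bool :=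
  !![false, false, true, true; false, true, false, true; false, true, true, false; true, false, false, false]

theorem PA_real {F : Type u} [Field F] {t a b u : F} (ht : t ≠ 0) (ha : a ≠ 0) (hb : b ≠ 0)
    (hu : u ≠ 0) : Rz PA ((X ^ 2 - C t) * (X - C a) * (X - C b) - C u) := by
  refine ⟨!![0, 0, u, t; 0, a, 0, 1; 0, 1, b, 0; 1, 0, 0, 0], ?_, ?_⟩
  · intro i j
    fin_cases i <;> fin_cases j <;> simp [PA, ht, ha, hb, hu]
  · rw [Matrix.charpoly]
    simp [Matrix.charmatrix_apply, Matrix.det_succ_row_zero, Fin.sum_univ_succ, Fin.succAbove]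
    ring

/-- the 5x5 block, 9 entries -/
def PE : Fin 5 → Fin 5 → Bool :=
  !![true, true, true, false, false; false, true, true, false, false; false, false, false, true, false;
    false, false, true, false, true; true, false, false, false, false]

theorem PE_real {F : Type u} [Field F] {a b c d e : F} (ha : a ≠ 0) (hb : b ≠ 0) (hc : c ≠ 0)
    (hd : d ≠ 0) (he : e ≠ 0) :
    Rz PE (X * (X ^ 2 - C d) * (X - C a) * (X - C b) - C c * (X - C b) - C e) := by
  refine ⟨!![a, e, c, 0, 0; 0, b, 1, 0, 0; 0, 0, 0, 1, 0; 0, 0, d, 0, 1; 1, 0, 0, 0, 0], ?_, ?_⟩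
  · intro i j
    fin_cases i <;> fin_cases j <;> simp [PE, ha, hb, hc, hd, he]
  · rw [Matrix.charpoly]
    simp [Matrix.charmatrix_apply, Matrix.det_succ_row_zero, Fin.sum_univ_succ, Fin.succAbove]
    ring

def PB : Fin 2 → Fin 2 → Bool := fun _ _ => true

theorem PB_real {F : Type u} [Field F] [Infinite F] (x y : F) :
    Rz PB ((X - C x) * (X - C y)) := by
  classical
  obtain ⟨a, ha⟩ := Infinite.exists_notMem_finset ({0, x + y, x, y} : Finset F)
  simp only [Finset.mem_insert, Finset.mem_singleton, not_or] at ha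
  obtain ⟨h0, h1, h2, h3⟩ := ha
  refine ⟨!![a, 1; a * (x + y - a) - x * y, x + y - a], ?_, ?_⟩
  · have hb : a * (x + y - a) - x * y ≠ 0 := by
      have : a * (x + y - a) - x * y = - ((a - x) * (a - y)) := by ring
      rw [this]
      exact neg_ne_zero.mpr (mul_ne_zero (sub_ne_zero.mpr h2) (sub_ne_zero.mpr h3))
    have hd : x + y - a ≠ 0 := by
      rw [sub_ne_zero]; exact fun h => h1 h.symm
    intro i j
    fin_cases i <;> fin_cases j <;> simp [PB, h0, hb, hd]
  · rw [Matrix.charpoly]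
    simp [Matrix.charmatrix_apply, Matrix.det_succ_row_zero, Fin.sum_univ_succ, Fin.succAbove]
    ring

/-- the 3x3 block, 6 entries -/
def PC : Fin 3 → Fin 3 → Bool :=
  !![true, true, false; true, false, true; true, false, true]

theorem PC_real {F : Type u} [Field F] [Infinite F] (x y z : F) :
    Rz PC ((X - C x) * (X - C y) * (X - C z)) := by
  classical
  set q : F[X] := X ^ 2 - C (x + y + z) * X + C (x * y + x * z + y * z) with hq
  have hq0 : q ≠ 0 := by
    intro hh
    have h2 : q.coeff 2 = 1 := by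
      rw [hq]
      simp only [coeff_add, coeff_sub, coeff_C_mul, coeff_X_pow, coeff_X, coeff_C]
      norm_num
    rw [hh, coeff_zero] at h2
    exact zero_ne_one h2
  obtain ⟨g, hg⟩ := Infinite.exists_notMem_finset
    (({0, x + y + z, x, y, z} : Finset F) ∪ q.roots.toFinset)
  simp only [Finset.mem_union, Finset.mem_insert, Finset.mem_singleton, not_or,
    Multiset.mem_toFinset, mem_roots hq0] at hg
  obtain ⟨⟨h0, h1, h2, h3, h4⟩, h5⟩ := hg
  have hqg : g ^ 2 - (x + y + z) * g + (x * y + x * z + y * z) ≠ 0 := by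
    intro hh
    apply h5
    simp only [hq, IsRoot.def, eval_add, eval_sub, eval_mul, eval_C, eval_pow, eval_X]
    exact hh
  have ha : x + y + z - g ≠ 0 := by
    rw [sub_ne_zero]; exact fun h => h1 h.symm
  have hc : -(g ^ 2 - (x + y + z) * g + (x * y + x * z + y * z)) ≠ 0 := neg_ne_zero.mpr hqg
  have hf : -((g - x) * (g - y) * (g - z)) ≠ 0 :=
    neg_ne_zero.mpr (mul_ne_zero (mul_ne_zero (sub_ne_zero.mpr h2) (sub_ne_zero.mpr h3))
      (sub_ne_zero.mpr h4))
  refine ⟨!![x + y + z - g, 1, 0; -(g ^ 2 - (x + y + z) * g + (x * y + x * z + y * z)), 0, 1;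
    -((g - x) * (g - y) * (g - z)), 0, g], ?_, ?_⟩
  · intro i j
    fin_cases i <;> fin_cases j
    · exact iff_of_true ha rfl
    · simp [PC]
    · simp [PC]
    · exact iff_of_true hc rfl
    · simp [PC]
    · simp [PC]
    · exact iff_of_true hf rfl
    · simp [PC]
    · simp [PC, h0]
  · rw [Matrix.charpoly]
    simp [Matrix.charmatrix_apply, Matrix.det_succ_row_zero, Fin.sum_univ_succ, Fin.succAbove]
    ring

theorem ms_cons {α : Type u} {s : Multiset α} {n : ℕ} (h : s.card = n + 1) :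
    ∃ a t, s = a ::ₘ t ∧ t.card = n := by
  obtain ⟨a, t, ht, hc⟩ := Multiset.card_eq_succ_iff.mp h
  exact ⟨a, t, ht.symm, hc⟩

/-- Order `n`, exactly `2n` entries. -/
theorem B_exists {F : Type u} [Field F] [Infinite F] (m : ℕ) :
    (∃ Q : Fin (2 * m + 2) → Fin (2 * m + 2) → Bool, cnt Q = 2 * (2 * m + 2) ∧
      ∀ s : Multiset F, s.card = 2 * m + 2 → Rz Q (rp s)) ∧
    (∃ Q : Fin (2 * m + 3) → Fin (2 * m + 3) → Bool, cnt Q = 2 * (2 * m + 3) ∧
      ∀ s : Multiset F, s.card = 2 * m + 3 → Rz Q (rp s)) := by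
  induction m with
  | zero =>
    refine ⟨⟨PB, by decide, ?_⟩, ⟨PC, by decide, ?_⟩⟩
    · intro s hs
      obtain ⟨x, t, rfl, ht⟩ := ms_cons (n := 1) hs
      obtain ⟨y, r, rfl, hr⟩ := ms_cons (n := 0) ht
      obtain rfl := Multiset.card_eq_zero.mp hr
      have := PB_real x y
      simpa [rp] using this
    · intro s hs
      obtain ⟨x, t, rfl, ht⟩ := ms_cons (n := 2) hs
      obtain ⟨y, r, rfl, hr⟩ := ms_cons (n := 1) ht
      obtain ⟨z, q, rfl, hq⟩ := ms_cons (n := 0) hr
      obtain rfl := Multiset.card_eq_zero.mp hq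
      have := PC_real x y z
      simpa [rp, mul_assoc] using this
  | succ m ih =>
    have step : ∀ k : ℕ, (∃ Q : Fin k → Fin k → Bool, cnt Q = 2 * k ∧
        ∀ s : Multiset F, s.card = k → Rz Q (rp s)) →
        (∃ Q : Fin (k + 2) → Fin (k + 2) → Bool, cnt Q = 2 * (k + 2) ∧
        ∀ s : Multiset F, s.card = k + 2 → Rz Q (rp s)) := by
      rintro k ⟨Q, hQ, hQr⟩
      have e : Fin k ⊕ Fin 2 ≃ Fin (k + 2) := finSumFinEquiv
      refine ⟨fun i j => dsum Q PB (e.symm i) (e.symm j), ?_, ?_⟩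
      · rw [cnt_equiv, cnt_dsum, hQ]
        have : cnt PB = 4 := by decide
        omega
      · intro s hs
        obtain ⟨x, t, rfl, ht⟩ := ms_cons (n := k + 1) hs
        obtain ⟨y, r, rfl, hr⟩ := ms_cons (n := k) ht
        have := Rz_equiv e (Rz_dsum (hQr r hr) (PB_real x y))
        convert this using 1
        simp only [rp, Multiset.map_cons, Multiset.prod_cons]
        ring
    exact ⟨step _ ih.1, step _ ih.2⟩

theorem base_exists {F : Type u} [Field F] [Infinite F] (n : ℕ) (hn : 2 ≤ n) :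
    ∃ Q : Fin n → Fin n → Bool, cnt Q = 2 * n ∧
      ∀ s : Multiset F, s.card = n → Rz Q (rp s) := by
  rcases Nat.even_or_odd' n with ⟨m, rfl | rfl⟩
  · obtain ⟨k, rfl⟩ : ∃ k, m = k + 1 := ⟨m - 1, by omega⟩
    exact (B_exists k).1
  · obtain ⟨k, rfl⟩ : ∃ k, m = k + 1 := ⟨m - 1, by omega⟩
    exact (B_exists k).2

/-- The general construction from a block of order `m` with `2m - 1` entries. -/
theorem build {F : Type u} [Field F] [Infinite F] (m N : ℕ)
    (PM : Fin m → Fin m → Bool) (hm : cnt PM + 1 = 2 * m) (hN : m + 2 ≤ N)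
    (hgood : ∀ s : Multiset F, N ≤ s.card → ∃ t ≤ s, t.card = m ∧ Rz PM (rp t)) (n : ℕ) :
    2 ≤ n → ∃ Q : Fin n → Fin n → Bool,
      cnt Q ≤ 2 * n ∧ m * cnt Q + n ≤ 2 * m * n + (N - 1) ∧
      ∀ s : Multiset F, s.card = n → Rz Q (rp s) := by
  induction n using Nat.strong_induction_on with
  | _ n ih =>
    intro hn
    rcases lt_or_ge n N with hlt | hge
    · obtain ⟨Q, hQ, hQr⟩ := base_exists (F := F) n hn
      refine ⟨Q, hQ.le, ?_, hQr⟩
      rw [hQ]
      have : m * (2 * n) = 2 * m * n := by ring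
      omega
    · obtain ⟨k, rfl⟩ : ∃ k, n = m + k := ⟨n - m, by omega⟩
      obtain ⟨Q, hQ2, hQ, hQr⟩ := ih k (by omega) (by omega)
      have e : Fin m ⊕ Fin k ≃ Fin (m + k) := finSumFinEquiv
      refine ⟨fun i j => dsum PM Q (e.symm i) (e.symm j), ?_, ?_, ?_⟩
      · rw [cnt_equiv, cnt_dsum]
        omega
      · rw [cnt_equiv, cnt_dsum]
        obtain ⟨c, hc⟩ : ∃ c, cnt PM = c := ⟨_, rfl⟩
        rw [hc] at hm ⊢
        have h1 : m * (c + cnt Q) + m = m * (c + 1) + m * cnt Q := by ring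
        have h2 : 2 * m * (m + k) = m * (2 * m) + 2 * m * k := by ring
        rw [hm] at h1
        omega
      · intro s hs
        obtain ⟨t, hts, htc, htg⟩ := hgood s (by omega)
        obtain ⟨r, hr⟩ := Multiset.le_iff_exists_add.mp hts
        have hrc : r.card = k := by
          have := congrArg Multiset.card hr
          rw [Multiset.card_add, hs, htc] at this
          omega
        have key := Rz_equiv e (Rz_dsum htg (hQr r hrc))
        rw [hr, rp_add]
        exact key

theorem good_zero {F : Type u} [Field F] : Rz PA (rp (Multiset.replicate 4 (0 : F))) := by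
  have key := PA_real (F := F) (t := -1) (a := 1) (b := -1) (u := -1)
    (by simp) (by simp) (by simp) (by simp)
  convert key using 1
  simp only [rp, Multiset.map_replicate, Multiset.prod_replicate, C_neg, C_1, C_0]
  ring

theorem good_replicate {F : Type u} [Field F] [IsAlgClosed F] (h5 : (5 : F) ≠ 0) (l : F) :
    Rz PA (rp (Multiset.replicate 4 l)) := by
  classical
  by_cases hl : l = 0
  · subst hl; exact good_zero
  by_cases h2 : (2 : F) = 0
  · obtain ⟨a, ha⟩ := Infinite.exists_notMem_finset ({0, l} : Finset F)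
    simp only [Finset.mem_insert, Finset.mem_singleton, not_or] at ha
    obtain ⟨h0, h1⟩ := ha
    have hal : a - l ≠ 0 := sub_ne_zero.mpr h1
    have key := PA_real (t := a ^ 2) (a := a) (b := a) (u := (a - l) ^ 4)
      (pow_ne_zero _ h0) h0 h0 (pow_ne_zero _ hal)
    have h2' : (2 : F[X]) = 0 := by
      have h3 : (C (2 : F) : F[X]) = 0 := by rw [h2, C_0]
      have h4 : (C (2 : F) : F[X]) = 2 := map_ofNat C 2
      rw [← h4, h3]
    convert key using 1
    simp only [rp, Multiset.map_replicate, Multiset.prod_replicate, C_pow, C_sub]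
    linear_combination (-2 * C l * X ^ 3 + 3 * C l ^ 2 * X ^ 2 - 2 * C l ^ 3 * X + C a * X ^ 3
      - C a ^ 3 * X + C a ^ 4 + C l ^ 4 - 2 * C a ^ 3 * C l + 3 * C a ^ 2 * C l ^ 2
      - 2 * C a * C l ^ 3) * h2'
  · obtain ⟨i, hi⟩ : ∃ i : F, i ^ 2 = -1 := IsAlgClosed.exists_pow_nat_eq (-1) (by norm_num)
    have hmul : (2 + i) * (2 - i) = 5 := by linear_combination (-1) * hi
    have ha : l * (2 + i) ≠ 0 := by
      apply mul_ne_zero hl
      intro h; rw [h, zero_mul] at hmul; exact h5 hmul.symm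
    have hb : l * (2 - i) ≠ 0 := by
      apply mul_ne_zero hl
      intro h; rw [h, mul_zero] at hmul; exact h5 hmul.symm
    have hu : (4 : F) * l ^ 4 ≠ 0 := by
      have : (4 : F) = 2 * 2 := by norm_num
      rw [this]
      exact mul_ne_zero (mul_ne_zero h2 h2) (pow_ne_zero _ hl)
    have key := PA_real (t := -l ^ 2) (a := l * (2 + i)) (b := l * (2 - i)) (u := 4 * l ^ 4)
      (neg_ne_zero.mpr (pow_ne_zero _ hl)) ha hb hu
    convert key using 1
    have hi' : (C i : F[X]) ^ 2 = -1 := by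
      rw [← C_pow, hi]; simp
    have c4 : (C (4 : F) : F[X]) = 4 := map_ofNat C 4
    have c2 : (C (2 : F) : F[X]) = 2 := map_ofNat C 2
    simp only [rp, Multiset.map_replicate, Multiset.prod_replicate, C_pow, C_sub, C_mul, C_add,
      C_neg, c4, c2]
    linear_combination (C l ^ 2 * (X ^ 2 + C l ^ 2)) * hi'

/-- four roots with generic conditions. -/
theorem good_four {F : Type u} [Field F] [IsAlgClosed F] {x y z w : F}
    (h1 : x + y + z + w ≠ 0)
    (h3 : x * y * z + x * y * w + x * z * w + y * z * w ≠ 0)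
    (h12 : (x + y + z + w) * (x * y + x * z + x * w + y * z + y * w + z * w)
      - (x * y * z + x * y * w + x * z * w + y * z * w) ≠ 0)
    (hd : (x + y) * (x + z) * (x + w) * (y + z) * (y + w) * (z + w) ≠ 0) :
    Rz PA (rp ({x, y, z, w} : Multiset F)) := by
  set e1 := x + y + z + w with he1
  set e2 := x * y + x * z + x * w + y * z + y * w + z * w with he2
  set e3 := x * y * z + x * y * w + x * z * w + y * z * w with he3
  set e4 := x * y * z * w with he4
  obtain ⟨a, ha⟩ : ∃ a : F, a ^ 2 - e1 * a + (e2 - e3 / e1) = 0 := by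
    have := IsAlgClosed.exists_root (X ^ 2 - C e1 * X + C (e2 - e3 / e1) : F[X]) (by
      have : (X ^ 2 - C e1 * X + C (e2 - e3 / e1) : F[X]).degree = 2 := by
        compute_degree!
      rw [this]; decide)
    obtain ⟨a, ha⟩ := this
    refine ⟨a, ?_⟩
    simpa [IsRoot] using ha
  have hab : a * (e1 - a) = e2 - e3 / e1 := by linear_combination -ha
  have hne : e2 - e3 / e1 ≠ 0 := by
    intro h
    apply h12
    field_simp at h
    linear_combination h
  have ha0 : a ≠ 0 := by
    rintro rfl; apply hne; rw [← hab]; ring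
  have hb0 : e1 - a ≠ 0 := by
    intro h; apply hne; rw [← hab, h]; ring
  have ht0 : - (e3 / e1) ≠ 0 := neg_ne_zero.mpr (div_ne_zero h3 h1)
  have hu0 : (e2 - e3 / e1) * (e3 / e1) - e4 ≠ 0 := by
    intro h
    apply hd
    have h' : (e1 * e2 - e3) * e3 - e4 * e1 ^ 2 = 0 := by
      field_simp at h
      linear_combination h
    rw [← h', he1, he2, he3, he4]
    ring
  have key := PA_real ht0 ha0 hb0 hu0
  convert key using 1
  have hab' : C a * (C e1 - C a) = (C e2 - C (e3 / e1) : F[X]) := by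
    rw [← C_sub, ← C_mul, ← C_sub, hab]
  have ht' : (C (e3 / e1) * C e1 : F[X]) = C e3 := by
    rw [← C_mul]; congr 1; field_simp
  have E1 : (C e1 : F[X]) = C x + C y + C z + C w := by simp [he1]
  have E2 : (C e2 : F[X]) = C x * C y + C x * C z + C x * C w + C y * C z + C y * C w + C z * C w := by
    simp [he2]
  have E3 : (C e3 : F[X]) = C x * C y * C z + C x * C y * C w + C x * C z * C w + C y * C z * C w := by
    simp [he3]
  have E4 : (C e4 : F[X]) = C x * C y * C z * C w := by simp [he4]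
  have hprod : rp ({x, y, z, w} : Multiset F) =
      (X ^ 4 - C e1 * X ^ 3 + C e2 * X ^ 2 - C e3 * X + C e4 : F[X]) := by
    rw [E1, E2, E3, E4]
    simp [rp]
    ring
  rw [hprod]
  simp only [C_neg, C_sub, C_mul]
  linear_combination (-(X ^ 2 + C (e3 / e1))) * hab' + X * ht'

theorem exists_good4 {F : Type u} [Field F] [IsAlgClosed F] (h5 : (5 : F) ≠ 0) (s : Multiset F)
    (hs : 31 ≤ s.card) : ∃ t ≤ s, t.card = 4 ∧ Rz PA (rp t) := by
  classical
  by_cases h : ∃ l, 4 ≤ s.count l
  · obtain ⟨l, hl⟩ := h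
    exact ⟨Multiset.replicate 4 l, Multiset.le_count_iff_replicate_le.mp hl, by simp,
      good_replicate h5 l⟩
  · push Not at h
    have hcard : 11 ≤ s.toFinset.card := by
      by_contra hlt
      have h1 : s.card = ∑ a ∈ s.toFinset, s.count a := (Multiset.toFinset_sum_count_eq s).symm
      have h2 : ∑ a ∈ s.toFinset, s.count a ≤ ∑ a ∈ s.toFinset, 3 :=
        Finset.sum_le_sum fun a _ => Nat.lt_succ_iff.mp (h a)
      rw [Finset.sum_const, smul_eq_mul] at h2
      omega
    set S := s.toFinset with hS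
    have hne : ∀ {a b : F}, b ≠ -a → a + b ≠ 0 := by
      intro a b hab hh
      exact hab (by linear_combination hh)
    -- pick x
    obtain ⟨x, hxS, hx⟩ : ∃ x ∈ S, x ∉ (∅ : Finset F) :=
      Finset.exists_mem_notMem_of_card_lt_card (by rw [Finset.card_empty]; omega)
    obtain ⟨y, hyS, hy⟩ : ∃ y ∈ S, y ∉ ({x, -x} : Finset F) :=
      Finset.exists_mem_notMem_of_card_lt_card
        (lt_of_le_of_lt Finset.card_le_two (by omega))
    simp only [Finset.mem_insert, Finset.mem_singleton, not_or] at hy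
    obtain ⟨hyx, hyx'⟩ := hy
    have hxy : x + y ≠ 0 := hne hyx'
    obtain ⟨z, hzS, hz⟩ : ∃ z ∈ S, z ∉ ({x, y, -x, -y, -(x + y), -(x * y) / (x + y)} : Finset F) :=
      Finset.exists_mem_notMem_of_card_lt_card
        (lt_of_le_of_lt Finset.card_le_six (by omega))
    simp only [Finset.mem_insert, Finset.mem_singleton, not_or] at hz
    obtain ⟨hzx, hzy, hzx', hzy', hz1, hz2⟩ := hz
    set s1 := x + y + z with hs1
    set s2 := x * y + (x + y) * z with hs2
    set s3 := x * y * z with hs3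
    have hs1' : s1 ≠ 0 := by
      intro hh; apply hz1; linear_combination hh
    have hs2' : s2 ≠ 0 := by
      intro hh; apply hz2; rw [eq_div_iff hxy]; linear_combination hh
    set q : F[X] := C s1 * X ^ 2 + C (s1 ^ 2) * X + C (s1 * s2 - s3) with hq
    have hqdeg : q.natDegree ≤ 2 := by
      rw [hq]; compute_degree
    have hq0 : q ≠ 0 := by
      intro hh
      have h2 : q.coeff 2 = s1 := by
        rw [hq]
        simp only [coeff_add, coeff_C_mul, coeff_X_pow, coeff_X, coeff_C]
        norm_num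
      rw [hh, coeff_zero] at h2
      exact hs1' h2.symm
    have hcard2 : (({x, y, z, -x, -y} : Finset F) ∪ (({-z, -s1, -s3 / s2} : Finset F) ∪
        q.roots.toFinset)).card < S.card := by
      calc _ ≤ ({x, y, z, -x, -y} : Finset F).card + (({-z, -s1, -s3 / s2} : Finset F) ∪
            q.roots.toFinset).card := Finset.card_union_le _ _
        _ ≤ 5 + (({-z, -s1, -s3 / s2} : Finset F).card + q.roots.toFinset.card) :=
            add_le_add Finset.card_le_five (Finset.card_union_le _ _)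
        _ ≤ 5 + (3 + 2) := by
            apply add_le_add le_rfl
            apply add_le_add Finset.card_le_three
            exact (Multiset.toFinset_card_le _).trans ((card_roots' q).trans hqdeg)
        _ < S.card := by omega
    obtain ⟨w, hwS, hw⟩ := Finset.exists_mem_notMem_of_card_lt_card hcard2
    simp only [Finset.mem_union, Finset.mem_insert, Finset.mem_singleton, not_or,
      Multiset.mem_toFinset, mem_roots hq0] at hw
    obtain ⟨⟨hwx, hwy, hwz, hwx', hwy'⟩, ⟨hwz', hw1, hw2⟩, hwq⟩ := hw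
    refine ⟨{x, y, z, w}, ?_, by simp, ?_⟩
    · have hnd : ({x, y, z, w} : Multiset F).Nodup := by
        simp [Ne.symm hyx, Ne.symm hzx, Ne.symm hzy, Ne.symm hwx, Ne.symm hwy, Ne.symm hwz]
      rw [Multiset.le_iff_subset hnd]
      intro a ha
      simp only [Multiset.insert_eq_cons, Multiset.mem_cons, Multiset.mem_singleton] at ha
      rcases ha with rfl | rfl | rfl | rfl
      · exact Multiset.mem_toFinset.mp hxS
      · exact Multiset.mem_toFinset.mp hyS
      · exact Multiset.mem_toFinset.mp hzS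
      · exact Multiset.mem_toFinset.mp hwS
    · apply good_four
      · intro hh; apply hw1; rw [hs1]; linear_combination hh
      · intro hh; apply hw2; rw [eq_div_iff hs2', hs2, hs3]; linear_combination hh
      · intro hh
        apply hwq
        simp only [hq, IsRoot.def, eval_add, eval_mul, eval_C, eval_pow, eval_X]
        rw [hs1, hs2, hs3]
        linear_combination hh
      · exact mul_ne_zero (mul_ne_zero (mul_ne_zero (mul_ne_zero (mul_ne_zero hxy (hne hzx'))
          (hne hwx')) (hne hzy')) (hne hwy')) (hne hwz')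

/-! ### characteristic five -/

section five

variable {R : Type u} [CommRing R]

def w1 (a b c d e : R) : R := a + b + c + d + e
def w2 (a b c d e : R) : R := a * b + a * c + a * d + a * e + b * c + b * d + b * e + c * d + c * e + d * e
def w3 (a b c d e : R) : R := a * b * c + a * b * d + a * b * e + a * c * d + a * c * e + a * d * e
  + b * c * d + b * c * e + b * d * e + c * d * e
def w4 (a b c d e : R) : R := a * b * c * d + a * b * c * e + a * b * d * e + a * c * d * e
  + b * c * d * e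
def w5 (a b c d e : R) : R := a * b * c * d * e
def w6 (a b c d e : R) : R := w1 a b c d e * w2 a b c d e - w3 a b c d e
def w7 (a b c d e : R) : R := w6 a b c d e * w3 a b c d e - w4 a b c d e * w1 a b c d e ^ 2
def w8 (a b c d e : R) : R := w7 a b c d e ^ 2 * w6 a b c d e
  + w7 a b c d e * w5 a b c d e * w1 a b c d e ^ 4 + w5 a b c d e ^ 2 * w1 a b c d e ^ 5
def w9 (a b c d e : R) : R := w1 a b c d e * w3 a b c d e * w6 a b c d e * w7 a b c d e
  * w8 a b c d e

end five

theorem pick {F : Type u} [Field F] [DecidableEq F] (S used : Finset F) (W : F[X])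
    (hdeg : W.natDegree ≤ 15) (c : F) (hc : W.eval c ≠ 0) (hS : used.card + 15 < S.card) :
    ∃ x ∈ S, x ∉ used ∧ W.eval x ≠ 0 := by
  have hW : W ≠ 0 := by rintro rfl; simp at hc
  have hcard2 : (used ∪ W.roots.toFinset).card < S.card := by
    calc _ ≤ used.card + W.roots.toFinset.card := Finset.card_union_le _ _
      _ ≤ used.card + 15 := by
          apply add_le_add le_rfl
          exact (Multiset.toFinset_card_le _).trans ((card_roots' W).trans hdeg)
      _ < S.card := hS
  obtain ⟨w, hwS, hw⟩ := Finset.exists_mem_notMem_of_card_lt_card hcard2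
  simp only [Finset.mem_union, not_or, Multiset.mem_toFinset, mem_roots hW] at hw
  exact ⟨w, hwS, hw.1, hw.2⟩

/-- five roots with generic conditions. -/
theorem good_five {F : Type u} [Field F] [IsAlgClosed F] {x y z w v : F}
    (h : w9 x y z w v ≠ 0) :
    Rz PE (rp ({x, y, z, w, v} : Multiset F)) := by
  have hprod : rp ({x, y, z, w, v} : Multiset F) =
      (X ^ 5 - C (w1 x y z w v) * X ^ 4 + C (w2 x y z w v) * X ^ 3 - C (w3 x y z w v) * X ^ 2
        + C (w4 x y z w v) * X - C (w5 x y z w v) : F[X]) := by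
    simp [rp, w1, w2, w3, w4, w5]
    ring
  unfold w9 at h
  obtain ⟨⟨⟨⟨h1, h3⟩, h6⟩, h7⟩, h8⟩ :
      (((w1 x y z w v ≠ 0 ∧ w3 x y z w v ≠ 0) ∧ w6 x y z w v ≠ 0) ∧ w7 x y z w v ≠ 0) ∧
        w8 x y z w v ≠ 0 := by
    simpa only [mul_ne_zero_iff] using h
  unfold w8 at h8
  unfold w7 at h7 h8
  unfold w6 at h6 h7 h8
  rw [hprod]
  generalize w1 x y z w v = e1 at *
  generalize w2 x y z w v = e2 at *
  generalize w3 x y z w v = e3 at *
  generalize w4 x y z w v = e4 at *
  generalize w5 x y z w v = e5 at *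
  clear hprod h
  obtain ⟨b, hb⟩ : ∃ b : F, b ^ 2 - e1 * b + (e2 - e3 / e1) = 0 := by
    have := IsAlgClosed.exists_root (X ^ 2 - C e1 * X + C (e2 - e3 / e1) : F[X]) (by
      have : (X ^ 2 - C e1 * X + C (e2 - e3 / e1) : F[X]).degree = 2 := by
        compute_degree!
      rw [this]; decide)
    obtain ⟨b, hb⟩ := this
    refine ⟨b, ?_⟩
    simpa [IsRoot] using hb
  have hab : (e1 - b) * b = e2 - e3 / e1 := by linear_combination -hb
  have hne : e2 - e3 / e1 ≠ 0 := by
    intro h
    apply h6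
    field_simp at h
    linear_combination h
  have hb0 : b ≠ 0 := by
    rintro rfl; apply hne; rw [← hab]; ring
  have ha0 : e1 - b ≠ 0 := by
    intro h; apply hne; rw [← hab, h]; ring
  have hd0 : - (e3 / e1) ≠ 0 := neg_ne_zero.mpr (div_ne_zero h3 h1)
  obtain ⟨c, hc⟩ : ∃ c : F, c = (e2 - e3 / e1) * (e3 / e1) - e4 := ⟨_, rfl⟩
  have hc' : c * e1 ^ 2 = (e1 * e2 - e3) * e3 - e4 * e1 ^ 2 := by
    rw [hc]; field_simp
  have hc0 : c ≠ 0 := by
    rintro rfl
    apply h7
    rw [← hc']; ring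
  have he0 : c * b + e5 ≠ 0 := by
    intro hh
    apply h8
    have hprod : (c * b + e5) * (c * (e1 - b) + e5) = c ^ 2 * (e2 - e3 / e1) + c * e5 * e1 + e5 ^ 2 := by
      rw [← hab]; ring
    rw [hh, zero_mul] at hprod
    have hz : (e2 - e3 / e1) * e1 = e1 * e2 - e3 := by field_simp
    rw [← hc', ← hz]
    linear_combination (-e1 ^ 5) * hprod
  have key := PE_real ha0 hb0 hc0 hd0 he0
  convert key using 1
  have hab' : (C e1 - C b) * C b = (C e2 - C (e3 / e1) : F[X]) := by
    rw [← C_sub, ← C_mul, ← C_sub, hab]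
  have ht' : (C (e3 / e1) * C e1 : F[X]) = C e3 := by
    rw [← C_mul]; congr 1; field_simp
  have hc'' : (C c : F[X]) = (C e2 - C (e3 / e1)) * C (e3 / e1) - C e4 := by
    rw [← C_sub, ← C_mul, ← C_sub, hc]
  simp only [C_neg, C_sub, C_mul, C_add]
  linear_combination (-(X ^ 3 + C (e3 / e1) * X)) * hab' + X ^ 2 * ht' + X * hc''

theorem good_replicate5 {F : Type u} [Field F] [IsAlgClosed F] [CharP F 5] (l : F) :
    Rz PE (rp (Multiset.replicate 5 l)) := by
  classical
  obtain ⟨s, hs⟩ := Infinite.exists_notMem_finset ({0, -l} : Finset F)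
  simp only [Finset.mem_insert, Finset.mem_singleton, not_or] at hs
  obtain ⟨h0, h1⟩ := hs
  have hsl : s + l ≠ 0 := by
    intro hh; apply h1; linear_combination hh
  have key := PE_real (a := s) (b := -s) (c := -s ^ 4) (d := -s ^ 2) (e := (s + l) ^ 5)
    h0 (neg_ne_zero.mpr h0) (neg_ne_zero.mpr (pow_ne_zero _ h0))
    (neg_ne_zero.mpr (pow_ne_zero _ h0)) (pow_ne_zero _ hsl)
  have h5' : (5 : F[X]) = 0 := by
    have : ((5 : ℕ) : F[X]) = 0 := CharP.cast_eq_zero F[X] 5
    simpa using this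
  convert key using 1
  simp only [rp, Multiset.map_replicate, Multiset.prod_replicate, C_pow, C_add, C_neg]
  linear_combination (-C l * X ^ 4 + 2 * C l ^ 2 * X ^ 3 - 2 * C l ^ 3 * X ^ 2 + C l ^ 4 * X
    + C s ^ 4 * C l + 2 * C s ^ 3 * C l ^ 2 + 2 * C s ^ 2 * C l ^ 3 + C s * C l ^ 4) * h5'

theorem exists_good5 {F : Type u} [Field F] [IsAlgClosed F] [CharP F 5] (s : Multiset F)
    (hs : 77 ≤ s.card) : ∃ t ≤ s, t.card = 5 ∧ Rz PE (rp t) := by
  classical
  by_cases h : ∃ l, 5 ≤ s.count l
  · obtain ⟨l, hl⟩ := h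
    exact ⟨Multiset.replicate 5 l, Multiset.le_count_iff_replicate_le.mp hl, by simp,
      good_replicate5 l⟩
  · push Not at h
    have hcard : 20 ≤ s.toFinset.card := by
      by_contra hlt
      have h1 : s.card = ∑ a ∈ s.toFinset, s.count a := (Multiset.toFinset_sum_count_eq s).symm
      have h2 : ∑ a ∈ s.toFinset, s.count a ≤ ∑ a ∈ s.toFinset, 4 :=
        Finset.sum_le_sum fun a _ => Nat.lt_succ_iff.mp (h a)
      rw [Finset.sum_const, smul_eq_mul] at h2
      omega
    set S := s.toFinset with hS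
    have h0 : w9 (1 : F) 1 1 0 0 ≠ 0 := by
      have : w9 (1 : F) 1 1 0 0 = ((98304 : ℕ) : F) := by
        simp only [w9, w8, w7, w6, w5, w4, w3, w2, w1]
        norm_num
      rw [this, Ne, CharP.cast_eq_zero_iff F 5]
      decide
    obtain ⟨x, hxS, -, hx⟩ := pick S ∅ (w9 X (C 1) (C 1) (C 0) (C 0))
      (by simp only [w9, w8, w7, w6, w5, w4, w3, w2, w1]; compute_degree) 1
      (by simpa [w9, w8, w7, w6, w5, w4, w3, w2, w1] using h0) (by simp; omega)
    have hx' : w9 x 1 1 0 0 ≠ 0 := by simpa [w9, w8, w7, w6, w5, w4, w3, w2, w1] using hx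
    obtain ⟨y, hyS, hy0, hy⟩ := pick S {x} (w9 (C x) X (C 1) (C 0) (C 0))
      (by simp only [w9, w8, w7, w6, w5, w4, w3, w2, w1]; compute_degree) 1
      (by simpa [w9, w8, w7, w6, w5, w4, w3, w2, w1] using hx')
      (by rw [Finset.card_singleton]; omega)
    have hy' : w9 x y 1 0 0 ≠ 0 := by simpa [w9, w8, w7, w6, w5, w4, w3, w2, w1] using hy
    obtain ⟨z, hzS, hz0, hz⟩ := pick S {x, y} (w9 (C x) (C y) X (C 0) (C 0))
      (by simp only [w9, w8, w7, w6, w5, w4, w3, w2, w1]; compute_degree) 1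
      (by simpa [w9, w8, w7, w6, w5, w4, w3, w2, w1] using hy')
      (lt_of_le_of_lt (add_le_add Finset.card_le_two le_rfl) (by omega))
    have hz' : w9 x y z 0 0 ≠ 0 := by simpa [w9, w8, w7, w6, w5, w4, w3, w2, w1] using hz
    obtain ⟨w, hwS, hw0, hw⟩ := pick S {x, y, z} (w9 (C x) (C y) (C z) X (C 0))
      (by simp only [w9, w8, w7, w6, w5, w4, w3, w2, w1]; compute_degree) 0
      (by simpa [w9, w8, w7, w6, w5, w4, w3, w2, w1] using hz')
      (lt_of_le_of_lt (add_le_add Finset.card_le_three le_rfl) (by omega))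
    have hw' : w9 x y z w 0 ≠ 0 := by simpa [w9, w8, w7, w6, w5, w4, w3, w2, w1] using hw
    obtain ⟨v, hvS, hv0, hv⟩ := pick S {x, y, z, w} (w9 (C x) (C y) (C z) (C w) X)
      (by simp only [w9, w8, w7, w6, w5, w4, w3, w2, w1]; compute_degree) 0
      (by simpa [w9, w8, w7, w6, w5, w4, w3, w2, w1] using hw')
      (lt_of_le_of_lt (add_le_add Finset.card_le_four le_rfl) (by omega))
    have hv' : w9 x y z w v ≠ 0 := by simpa [w9, w8, w7, w6, w5, w4, w3, w2, w1] using hv
    simp only [Finset.mem_insert, Finset.mem_singleton, not_or] at hy0 hz0 hw0 hv0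
    refine ⟨{x, y, z, w, v}, ?_, by simp, good_five hv'⟩
    have hnd : ({x, y, z, w, v} : Multiset F).Nodup := by
      simp [Ne.symm hy0, Ne.symm hz0.1, Ne.symm hz0.2, Ne.symm hw0.1, Ne.symm hw0.2.1,
        Ne.symm hw0.2.2, Ne.symm hv0.1, Ne.symm hv0.2.1, Ne.symm hv0.2.2.1, Ne.symm hv0.2.2.2]
    rw [Multiset.le_iff_subset hnd]
    intro a ha
    simp only [Multiset.insert_eq_cons, Multiset.mem_cons, Multiset.mem_singleton] at ha
    rcases ha with rfl | rfl | rfl | rfl | rfl
    · exact Multiset.mem_toFinset.mp hxS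
    · exact Multiset.mem_toFinset.mp hyS
    · exact Multiset.mem_toFinset.mp hzS
    · exact Multiset.mem_toFinset.mp hwS
    · exact Multiset.mem_toFinset.mp hvS

/-- the general construction, both cases -/
theorem exists_pattern (F : Type u) [Field F] [IsAlgClosed F] (n : ℕ) (hn : 2 ≤ n) :
    ∃ Q : Fin n → Fin n → Bool, (∀ s : Multiset F, s.card = n → Rz Q (rp s)) ∧
      5 * cnt Q ≤ 9 * n + 76 ∧ (ringChar F ≠ 5 → 4 * cnt Q ≤ 7 * n + 30) := by
  by_cases h5 : ringChar F = 5
  · have hch : CharP F 5 := by rw [← h5]; exact ringChar.charP F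
    obtain ⟨Q, -, hQ, hQr⟩ := build (F := F) 5 77 PE (by decide) (by norm_num)
      exists_good5 n hn
    exact ⟨Q, hQr, by omega, fun h => absurd h5 h⟩
  · have h5' : (5 : F) ≠ 0 := by
      intro hh
      have h1 : ((5 : ℕ) : F) = 0 := by simpa using hh
      have h2 := (ringChar.spec F 5).mp h1
      rcases (Nat.dvd_prime (by norm_num : Nat.Prime 5)).mp h2 with h | h
      · have h3 : ((1 : ℕ) : F) = 0 := by
          rw [ringChar.spec F 1, h]
        simp at h3
      · exact h5 h
    obtain ⟨Q, hQ2, hQ, hQr⟩ := build (F := F) 4 31 PA (by decide) (by norm_num)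
      (exists_good4 h5') n hn
    exact ⟨Q, hQr, by omega, fun _ => by omega⟩

end Pool.Agent.Lib.MP_8c7c0e_co
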